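import Pool.Agent.Lib.MP_75c11f_co.Sh.Defs

/-! The size of `L(k,k)` and the rank symmetry. -/

set_option autoImplicit false

noncomputable section

namespace Pool.Agent.Lib.MP_75c11f_co.Sh

open Finset

theorem card_add {k : ℕ} {f : Fin k → ℕ} (hf : StrictMono f) (d : ℕ) :
    ∀ i j : Fin k, j.1 = i.1 + d → f i + d ≤ f j := by
  induction d with
  | zero =>
    intro i j h
    rw [Fin.ext (show j.1 = i.1 from h)]
    exact le_rfl
  | succ d ih =>
    intro i j h
    have h1 := ih i ⟨i.1 + d, by omega⟩ rfl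
    have h2 : f ⟨i.1 + d, by omega⟩ < f j := hf (show i.1 + d < j.1 by omega)
    omega

theorem card_onto {k : ℕ} {S : Finset ℕ} (hS : S ⊆ range (2 * k)) (hc : S.card = k) :
    ∃ x : L k, univ.image (fun i : Fin k => x.1 i + i.1) = S := by
  have hf : StrictMono (S.orderEmbOfFin hc) := (S.orderEmbOfFin hc).strictMono
  have h1 : ∀ i : Fin k, i.1 ≤ S.orderEmbOfFin hc i := fun i => by
    have := card_add hf i.1 ⟨0, i.pos⟩ i (by simp)
    omega
  refine ⟨⟨fun i => S.orderEmbOfFin hc i - i.1, fun i j hij => ?_, fun i => ?_⟩, ?_⟩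
  · have h2 : i.1 ≤ j.1 := hij
    have := card_add hf (j.1 - i.1) i j (by omega)
    have := h1 i
    show S.orderEmbOfFin hc i - i.1 ≤ S.orderEmbOfFin hc j - j.1
    omega
  · have h2 := i.2
    have h3 := card_add hf (k - 1 - i.1) i ⟨k - 1, by omega⟩ (by show k - 1 = _; omega)
    have h4 := mem_range.1 (hS (S.orderEmbOfFin_mem hc ⟨k - 1, by omega⟩))
    show S.orderEmbOfFin hc i - i.1 ≤ k
    omega
  · refine Eq.trans (congrArg (fun f => univ.image f) (funext fun i => ?_))
      (S.image_orderEmbOfFin_univ hc)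
    exact Nat.sub_add_cancel (h1 i)

theorem card_L (k : ℕ) : Fintype.card (L k) = (2 * k).choose k := by
  refine (card_L_le k).antisymm ?_
  have h : ((range (2 * k)).powersetCard k).card ≤ (univ : Finset (L k)).card := by
    refine card_le_card_of_surjOn (fun x => univ.image fun i : Fin k => x.1 i + i.1) ?_
    intro S hS
    obtain ⟨h1, h2⟩ := mem_powersetCard.1 (mem_coe.1 hS)
    obtain ⟨x, hx⟩ := card_onto h1 h2
    exact ⟨x, mem_coe.2 (mem_univ _), hx⟩
  simpa using h

/-- The order reversing symmetry. -/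
def card_rev {k : ℕ} (x : L k) : L k :=
  ⟨fun i => k - x.1 i.rev, fun _ _ h => Nat.sub_le_sub_left (x.2.1 (Fin.rev_le_rev.2 h)) k,
    fun _ => Nat.sub_le _ _⟩

theorem card_rev_rev {k : ℕ} (x : L k) : card_rev (card_rev x) = x := by
  refine Subtype.ext (funext fun i => ?_)
  have := x.2.2 i
  show k - (k - x.1 i.rev.rev) = x.1 i
  rw [Fin.rev_rev]
  omega

theorem card_rk_rev {k : ℕ} (x : L k) : rk (card_rev x) + rk x = k ^ 2 := by
  unfold rk
  rw [← Equiv.sum_comp Fin.revPerm x.1, ← sum_add_distrib,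
    sum_congr rfl fun i _ => show (card_rev x).1 i + x.1 (Fin.revPerm i) = k from
      Nat.sub_add_cancel (x.2.2 i.rev)]
  simp [sq]

theorem card_sum (k n : ℕ) :
    ∑ j ∈ range n, (lev k j).card = (univ.filter fun x : L k => rk x < n).card := by
  rw [card_eq_sum_card_fiberwise (f := rk) (t := range n)
    fun x hx => mem_coe.2 (mem_range.2 (mem_filter.1 (mem_coe.1 hx)).2)]
  refine sum_congr rfl fun j hj => congrArg card ?_
  ext x
  simp only [mem_lev, mem_filter, mem_univ, true_and]
  exact ⟨fun h => ⟨h ▸ mem_range.1 hj, h⟩, fun h => h.2⟩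

theorem card_inj {k : ℕ} {p q : L k → Prop} [DecidablePred p] [DecidablePred q]
    (h : ∀ x, p x → q (card_rev x)) : (univ.filter p).card ≤ (univ.filter q).card :=
  card_le_card_of_injOn card_rev
    (fun x hx => mem_coe.2 (mem_filter.2 ⟨mem_univ _, h x (mem_filter.1 (mem_coe.1 hx)).2⟩))
    (Function.LeftInverse.injective card_rev_rev).injOn

theorem half_le (k : ℕ) :
    (2 * k).choose k ≤ 2 * ∑ j ∈ range (k ^ 2 / 2 + 1), (lev k j).card := by
  have h1 := card_filter_add_card_filter_not (s := (univ : Finset (L k)))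
    fun x => rk x < k ^ 2 / 2 + 1
  have h2 := card_inj (p := fun x : L k => ¬ rk x < k ^ 2 / 2 + 1)
    (q := fun x => rk x < k ^ 2 / 2 + 1) fun x hx => by
      have := card_rk_rev x
      omega
  rw [card_univ, card_L] at h1
  rw [card_sum]
  omega

theorem le_half (k : ℕ) :
    2 * ∑ j ∈ range (k ^ 2 / 2), (lev k j).card ≤ (2 * k).choose k := by
  have h1 := card_filter_add_card_filter_not (s := (univ : Finset (L k)))
    fun x => rk x < k ^ 2 / 2
  have h2 := card_inj (p := fun x : L k => rk x < k ^ 2 / 2)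
    (q := fun x => ¬ rk x < k ^ 2 / 2) fun x hx => by
      have := card_rk_rev x
      omega
  rw [card_univ, card_L] at h1
  rw [card_sum]
  omega

end Pool.Agent.Lib.MP_75c11f_co.Sh
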