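import Pool.Agent.Lib.MP_75c11f_co.Sh.Defs
import Pool.Agent.Lib.MP_bd7745_co.Basic

/-! Concentration of the outgoing weight. -/

set_option autoImplicit false

noncomputable section

namespace Pool.Agent.Lib.MP_75c11f_co.Sh

open Finset Filter Pool.Agent.Lib.MP_bd7745_co

/-- The subset of `range (2 * k)` attached to an element. -/
def concPhi {k : ℕ} (x : L k) : Finset ℕ := univ.image fun i : Fin k => x.1 i + i.1

/-- The outgoing weight as a function of a subset. -/
def concF (k : ℕ) (S : Finset ℕ) : ℝ :=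
  ∑ j ∈ range (2 * k), W k (j + 1) * ind (j ∈ S ∧ j + 1 ∉ S)

theorem conc_sub {k : ℕ} (x : L k) : concPhi x ⊆ range (2 * k) := by
  intro a ha
  obtain ⟨i, _, hi⟩ := mem_image.mp ha
  have h1 := x.2.2 i
  have h2 := i.2
  exact mem_range.mpr (by omega)

theorem conc_inj {k : ℕ} : Function.Injective (concPhi : L k → Finset ℕ) := by
  intro x y hxy
  have h1 : Set.range (fun i : Fin k => x.1 i + i.1) =
      Set.range (fun i : Fin k => y.1 i + i.1) := by
    have := congrArg (fun s : Finset ℕ => (s : Set ℕ)) hxy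
    simpa [concPhi] using this
  have h2 := ((strictMono_shift x).range_inj (strictMono_shift y)).mp h1
  apply Subtype.ext
  funext i
  have := congrFun h2 i
  simpa using this

theorem conc_W (k : ℕ) : W k (2 * k) = 0 := by
  unfold W
  push_cast
  ring

theorem conc_out {k : ℕ} (x : L k) : out x = concF k (concPhi x) := by
  have hm : Monotone (ext x.1) := monotone_nat_of_le_succ (L_mono x)
  have e1 : concF k (concPhi x) = ∑ j ∈ concPhi x, W k (j + 1) * ind (j + 1 ∉ concPhi x) := by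
    unfold concF
    rw [← sum_subset (conc_sub x) fun j _ hj => by rw [ind_false fun h => hj h.1, mul_zero]]
    exact sum_congr rfl fun j hj => by rw [ind_congr (and_iff_right hj)]
  rw [e1, out, out_eq, sum_range]
  rw [show (∑ j ∈ concPhi x, W k (j + 1) * ind (j + 1 ∉ concPhi x)) =
      ∑ i : Fin k, W k (x.1 i + i.1 + 1) * ind (x.1 i + i.1 + 1 ∉ concPhi x) from
    sum_image fun a _ b _ h => (strictMono_shift x).injective h]
  refine sum_congr rfl fun i _ => ?_
  have hi := ext_succ x.1 i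
  split_ifs with h
  · rw [hi, ind_true, mul_one]
    intro hc
    obtain ⟨j, _, hj⟩ := mem_image.mp hc
    have hj' := ext_succ x.1 j
    rcases le_or_gt j.1 i.1 with c | c
    · have := hm (show j.1 + 1 ≤ i.1 + 1 by omega)
      omega
    · have := hm (show i.1 + 2 ≤ j.1 + 1 by omega)
      omega
  · have h1 := hm (show i.1 + 1 ≤ i.1 + 2 by omega)
    by_cases c : i.1 + 1 < k
    · rw [ind_false, mul_zero]
      refine not_not.2 (mem_image.mpr ⟨⟨i.1 + 1, c⟩, mem_univ _, ?_⟩)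
      have h2 : ext x.1 (i.1 + 2) = x.1 ⟨i.1 + 1, c⟩ := ext_succ' x.1 (i.1 + 1) c
      show x.1 ⟨i.1 + 1, c⟩ + (i.1 + 1) = x.1 i + i.1 + 1
      omega
    · have h2 := ext_top x.1 (i.1 + 2) (by omega)
      have h3 := i.2
      rw [show x.1 i + i.1 + 1 = 2 * k by omega, conc_W, zero_mul]

theorem conc_flp (k e : ℕ) (S : Finset ℕ) :
    |concF k (flp e S) - concF k S| ≤ 2 * (k : ℝ) ^ 2 := by
  unfold concF
  rw [← sum_sub_distrib]
  have hk : (0 : ℝ) ≤ (k : ℝ) ^ 2 := sq_nonneg _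
  have h1 : ∀ a : ℕ, (∑ j ∈ range (2 * k), if j = a then (k : ℝ) ^ 2 else 0) ≤ (k : ℝ) ^ 2 := by
    intro a
    rw [sum_ite_eq']
    split_ifs
    exacts [le_rfl, hk]
  refine (abs_sum_le_sum_abs _ _).trans (le_trans (sum_le_sum (g := fun j =>
    (if j = e then (k : ℝ) ^ 2 else 0) + if j = e - 1 then (k : ℝ) ^ 2 else 0) fun j hj => ?_) ?_)
  · have w0 := W_nonneg (k := k) (j + 1) (mem_range.1 hj)
    have w1 := W_le (k := k) (j + 1)
    have hb : |W k (j + 1) * ind (j ∈ flp e S ∧ j + 1 ∉ flp e S) -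
        W k (j + 1) * ind (j ∈ S ∧ j + 1 ∉ S)| ≤ (k : ℝ) ^ 2 := by
      have a1 := ind_nonneg (j ∈ flp e S ∧ j + 1 ∉ flp e S)
      have a2 := ind_le_one (j ∈ flp e S ∧ j + 1 ∉ flp e S)
      have a3 := ind_nonneg (j ∈ S ∧ j + 1 ∉ S)
      have a4 := ind_le_one (j ∈ S ∧ j + 1 ∉ S)
      exact abs_le.2 ⟨by nlinarith, by nlinarith⟩
    by_cases c1 : j = e
    · rw [if_pos c1]
      split_ifs <;> linarith
    by_cases c2 : j = e - 1
    · rw [if_neg c1, if_pos c2]
      linarith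
    have c3 : j + 1 ≠ e := by omega
    rw [if_neg c1, if_neg c2, mem_flp, mem_flp, if_neg c1, if_neg c3]
    simp
  · rw [sum_add_distrib]
    linarith [h1 e, h1 (e - 1)]

theorem conc_quarter (U : Finset ℕ) {a b : ℕ} (ha : a ∈ U) (hb : b ∈ U) (hab : a ≠ b) :
    av U (fun S => ind (a ∈ S ∧ b ∉ S)) = 1 / 4 := by
  have h1 := av_flp U ha fun S => ind (a ∈ S ∧ b ∉ S)
  have h2 := av_flp U hb fun S => ind (b ∉ S)
  have h3 := av_add U (fun S => ind (a ∈ flp a S ∧ b ∉ flp a S)) fun S => ind (a ∈ S ∧ b ∉ S)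
  have h4 := av_add U (fun S => ind (b ∉ flp b S)) fun S => ind (b ∉ S)
  have h5 : av U (fun S => ind (a ∈ flp a S ∧ b ∉ flp a S) + ind (a ∈ S ∧ b ∉ S)) =
      av U fun S => ind (b ∉ S) := av_congr U fun S _ => by
    by_cases c : a ∈ S <;> by_cases d : b ∈ S <;> simp [ind, mem_flp, c, d, hab.symm]
  have h6 : av U (fun S => ind (b ∉ flp b S) + ind (b ∉ S)) = av U fun _ => 1 :=
    av_congr U fun S _ => by by_cases d : b ∈ S <;> simp [ind, mem_flp, d]
  rw [av_const] at h6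
  linarith

theorem conc_sumW (k n : ℕ) : ∑ j ∈ range n, W k (j + 1) =
    (k : ℝ) * n * (n + 1) - n * (n + 1) * (2 * n + 1) / 6 := by
  induction n with
  | zero => simp
  | succ n ih =>
    rw [sum_range_succ, ih]
    unfold W
    push_cast
    ring

theorem conc_av (k : ℕ) : av (range (2 * k)) (concF k) = (k : ℝ) ^ 3 / 3 - k / 12 := by
  have h : av (range (2 * k)) (concF k) = ∑ j ∈ range (2 * k), W k (j + 1) / 4 := by
    refine (av_sum _ _ fun j S => W k (j + 1) * ind (j ∈ S ∧ j + 1 ∉ S)).trans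
      (sum_congr rfl fun j hj => ?_)
    rw [av_mul]
    by_cases c : j + 1 < 2 * k
    · rw [conc_quarter _ hj (mem_range.2 c) (by omega)]
      ring
    · have := mem_range.1 hj
      rw [show j + 1 = 2 * k by omega, conc_W]
      simp
  rw [h, ← sum_div, conc_sumW]
  push_cast
  ring

theorem conc_card {θ : ℝ} (hθ : 0 < θ) {k : ℕ} (hk : 1 ≤ θ * (k : ℝ) ^ 2) :
    ((bad k θ).card : ℝ) ≤ 4 ^ k * (2 * Real.exp (-(θ ^ 2 / 64 * k))) := by
  have hk0 : (0 : ℝ) < k := by
    rcases Nat.eq_zero_or_pos k with rfl | h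
    · norm_num at hk
    · exact_mod_cast h
  obtain ⟨t, ht0, ht⟩ : ∃ t : ℝ, 0 < t ∧ t * (8 * (k : ℝ) ^ 2) = θ :=
    ⟨θ / (8 * (k : ℝ) ^ 2), by positivity, by field_simp⟩
  set μ : ℝ := (k : ℝ) ^ 3 / 3 - k / 12 with hμ
  set d : ℝ := θ * (k : ℝ) ^ 3 / 4 with hd
  have m1 := mcd (range (2 * k)) _ (concF k) (fun e _ S => conc_flp k e S) t
  have m2 := mcd (range (2 * k)) _ (concF k) (fun e _ S => conc_flp k e S) (-t)
  rw [conc_av, card_range, ← hμ] at m1 m2
  let g : Finset ℕ → ℝ := fun S => Real.exp (-(t * μ) - t * d) * Real.exp (t * concF k S) +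
    Real.exp (t * μ - t * d) * Real.exp (-t * concF k S)
  have g0 : ∀ S, 0 ≤ g S := fun S => by positivity
  have g1 : ∀ x ∈ bad k θ, 1 ≤ g (concPhi x) := by
    intro x hx
    rw [mem_bad, conc_out] at hx
    have k1 : (k : ℝ) ≤ θ * (k : ℝ) ^ 3 := by nlinarith
    have p1 := Real.exp_pos (-(t * μ) - t * d + t * concF k (concPhi x))
    have p2 := Real.exp_pos (t * μ - t * d + -t * concF k (concPhi x))
    simp only [g, ← Real.exp_add]
    rcases lt_abs.1 hx with c | c
    · have : 0 ≤ t * (concF k (concPhi x) - μ - d) := mul_nonneg ht0.le (by linarith)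
      have := Real.one_le_exp (x := -(t * μ) - t * d + t * concF k (concPhi x)) (by linarith)
      linarith
    · have : 0 ≤ t * (μ - d - concF k (concPhi x)) := mul_nonneg ht0.le (by linarith)
      have := Real.one_le_exp (x := t * μ - t * d + -t * concF k (concPhi x)) (by linarith)
      linarith
  have s1 : ((bad k θ).card : ℝ) ≤ ∑ S ∈ (range (2 * k)).powerset, g S := by
    calc ((bad k θ).card : ℝ) = ∑ _x ∈ bad k θ, (1 : ℝ) := by simp
      _ ≤ ∑ x ∈ bad k θ, g (concPhi x) := sum_le_sum g1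
      _ = ∑ S ∈ (bad k θ).image concPhi, g S := (sum_image fun _ _ _ _ h => conc_inj h).symm
      _ ≤ _ := sum_le_sum_of_subset_of_nonneg (fun S hS => by
          obtain ⟨x, _, rfl⟩ := mem_image.1 hS
          exact mem_powerset.2 (conc_sub x)) fun S _ _ => g0 S
  have s2 : ∑ S ∈ (range (2 * k)).powerset, g S = 4 ^ k * av (range (2 * k)) g := by
    unfold av
    rw [card_range, pow_mul, show (2 : ℝ) ^ 2 = 4 by norm_num]
    field_simp
  have e0 : -(t * d) + t ^ 2 * (2 * (k : ℝ) ^ 2) ^ 2 * ((2 * k : ℕ) : ℝ) / 8 =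
      -(θ ^ 2 / 64 * k) := by
    rw [hd, ← ht]
    push_cast
    ring
  have s3 : av (range (2 * k)) g ≤ 2 * Real.exp (-(θ ^ 2 / 64 * k)) := by
    simp only [g]
    rw [av_add, av_mul, av_mul, two_mul (Real.exp _)]
    refine add_le_add ((mul_le_mul_of_nonneg_left m1 (Real.exp_pos _).le).trans_eq ?_)
      ((mul_le_mul_of_nonneg_left m2 (Real.exp_pos _).le).trans_eq ?_) <;>
    · rw [← Real.exp_add, ← e0]
      ring_nf
  exact s1.trans (s2.trans_le (mul_le_mul_of_nonneg_left s3 (by positivity)))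

theorem bad_small {θ : ℝ} (hθ : 0 < θ) :
    ∀ᶠ k : ℕ in atTop, (k : ℝ) ^ 8 * (bad k θ).card ≤ ((2 * k).choose k : ℝ) := by
  have hc : 0 < θ ^ 2 / 64 := by positivity
  have t1 : Tendsto (fun k : ℕ => θ ^ 2 / 64 * (k : ℝ)) atTop atTop :=
    tendsto_natCast_atTop_atTop.const_mul_atTop hc
  have t2 := (Real.tendsto_pow_mul_exp_neg_atTop_nhds_zero 9).comp t1
  have t3 : Tendsto (fun k : ℕ => θ * (k : ℝ) ^ 2) atTop atTop :=
    ((tendsto_pow_atTop two_ne_zero).comp tendsto_natCast_atTop_atTop).const_mul_atTop hθ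
  filter_upwards [t2.eventually_le_const (show (0 : ℝ) < (θ ^ 2 / 64) ^ 9 / 2 by positivity),
    t3.eventually_ge_atTop 1, eventually_ge_atTop 4] with k h1 h2 h3
  have h4 : (4 : ℝ) ^ k ≤ k * ((2 * k).choose k : ℝ) := by
    exact_mod_cast (Nat.four_pow_lt_mul_centralBinom k h3).le
  have h5 : (k : ℝ) ^ 9 * (2 * Real.exp (-(θ ^ 2 / 64 * k))) ≤ 1 := by
    refine le_of_mul_le_mul_left ?_ (pow_pos hc 9)
    simp only [Function.comp, mul_pow] at h1
    linarith
  have h6 : (0 : ℝ) ≤ 2 * Real.exp (-(θ ^ 2 / 64 * k)) := by positivity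
  calc (k : ℝ) ^ 8 * (bad k θ).card
      ≤ (k : ℝ) ^ 8 * (k * ((2 * k).choose k : ℝ) * (2 * Real.exp (-(θ ^ 2 / 64 * k)))) :=
        mul_le_mul_of_nonneg_left ((conc_card hθ h2).trans (mul_le_mul_of_nonneg_right h4 h6))
          (by positivity)
    _ = ((2 * k).choose k : ℝ) * ((k : ℝ) ^ 9 * (2 * Real.exp (-(θ ^ 2 / 64 * k)))) := by ring
    _ ≤ _ := mul_le_of_le_one_right (by positivity) h5

end Pool.Agent.Lib.MP_75c11f_co.Sh
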