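import Pool.Agent.Lib.MP_75c11f_co.Main

/-! Levels and level flows of `L(k,k)`. -/

set_option autoImplicit false

noncomputable section

namespace Pool.Agent.Lib.MP_75c11f_co.Sh

open Finset

/-- Total weight of the covers above `x`. -/
def out {k : ℕ} (x : L k) : ℝ := ∑ y, wt x y

/-- Total weight of the covers below `x`. -/
def inn {k : ℕ} (x : L k) : ℝ := ∑ y, wt y x

/-- The level of rank `j`. -/
def lev (k j : ℕ) : Finset (L k) := univ.filter fun x => rk x = j

/-- The flow from level `j` to level `j + 1`. -/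
def fl (k j : ℕ) : ℝ := ∑ x ∈ lev k j, out x

open Classical in
/-- Elements whose outgoing weight is far from `k ^ 3 / 3`. -/
def bad (k : ℕ) (θ : ℝ) : Finset (L k) :=
  univ.filter fun x => θ * (k : ℝ) ^ 3 / 3 < |out x - (k : ℝ) ^ 3 / 3|

theorem mem_lev {k j : ℕ} {x : L k} : x ∈ lev k j ↔ rk x = j := by simp [lev]

theorem mem_bad {k : ℕ} {θ : ℝ} {x : L k} :
    x ∈ bad k θ ↔ θ * (k : ℝ) ^ 3 / 3 < |out x - (k : ℝ) ^ 3 / 3| := by simp [bad]

end Pool.Agent.Lib.MP_75c11f_co.Sh
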