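import Pool.Agent.Lib.MP_75c11f_co.Sh.Defs

/-! Few comparable pairs inside three consecutive levels. -/

set_option autoImplicit false

noncomputable section

namespace Pool.Agent.Lib.MP_75c11f_co.Sh

open Finset

theorem edge_eq {k : ℕ} (a b : Fin k → ℕ) (h : a ≤ b) (hs : ∑ i, b i = ∑ i, a i) : b = a := by
  funext i
  exact ((Finset.sum_eq_sum_iff_of_le (fun j _ => h j)).1 hs.symm i (mem_univ i)).symm

theorem edge_step {k : ℕ} (a b : Fin k → ℕ) (h : a ≤ b) (hs : ∑ i, a i < ∑ i, b i) :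
    ∃ i, up a i ≤ b := by
  obtain ⟨i, _, hi⟩ := Finset.exists_lt_of_sum_lt hs
  refine ⟨i, fun j => ?_⟩
  unfold up
  rw [Function.update_apply]
  split_ifs with c
  · rw [c]
    exact hi
  · exact h j

theorem edge_one {k : ℕ} (a b : Fin k → ℕ) (h : a ≤ b) (hs : ∑ i, b i = ∑ i, a i + 1) :
    ∃ i, b = up a i := by
  obtain ⟨i, hi⟩ := edge_step a b h (by omega)
  exact ⟨i, edge_eq _ _ hi (by rw [sum_up, hs])⟩

theorem edge_two {k : ℕ} (a b : Fin k → ℕ) (h : a ≤ b) (hs : ∑ i, b i = ∑ i, a i + 2) :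
    ∃ i i2, b = up (up a i) i2 := by
  obtain ⟨i, hi⟩ := edge_step a b h (by omega)
  obtain ⟨i2, h2⟩ := edge_one _ _ hi (by rw [sum_up, hs])
  exact ⟨i, i2, h2⟩

theorem edge_lt {k : ℕ} (x y : L k) (hne : x ≠ y) (h : x.1 ≤ y.1) : rk x < rk y := by
  have h1 : rk x ≤ rk y := Finset.sum_le_sum fun i _ => h i
  refine lt_of_le_of_ne h1 fun c => hne (Subtype.ext ?_)
  exact (edge_eq _ _ h c.symm).symm

theorem edges_le (k j : ℕ) (P Q : Finset (L k)) (hQ : ∀ x ∈ Q, rk x = j)
    (hP : ∀ x ∈ P, rk x = j + 1 ∨ rk x = j + 2) (U : Finset (L k))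
    (hU : ∀ x ∈ U, x ∈ P ∨ x ∈ Q) :
    ((G k).induce (U : Set (L k))).edgeSet.ncard ≤ k * U.card + k ^ 2 * Q.card := by
  classical
  set A : Finset (Sym2 (Fin k → ℕ)) :=
    (U ×ˢ (univ : Finset (Fin k))).image fun q => s(q.1.1, up q.1.1 q.2) with hA
  set B : Finset (Sym2 (Fin k → ℕ)) :=
    (Q ×ˢ ((univ : Finset (Fin k)) ×ˢ (univ : Finset (Fin k)))).image
      fun q => s(q.1.1, up (up q.1.1 q.2.1) q.2.2) with hB
  have key : ∀ x ∈ U, ∀ y ∈ U, x ≠ y → x.1 ≤ y.1 → s(x.1, y.1) ∈ A ∪ B := by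
    intro x hx y hy hne hle
    have hlt := edge_lt x y hne hle
    by_cases c : rk y = rk x + 1
    · obtain ⟨i, hi⟩ := edge_one _ _ hle c
      refine mem_union_left _ (mem_image.2 ⟨(x, i), mem_product.2 ⟨hx, mem_univ _⟩, ?_⟩)
      rw [hi]
    · have hy' : rk y ≤ j + 2 := by
        rcases hU y hy with d | d
        · have := hP y d
          omega
        · have := hQ y d
          omega
      have hxQ : x ∈ Q := by
        rcases hU x hx with d | d
        · have := hP x d
          omega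
        · exact d
      have hxj := hQ x hxQ
      obtain ⟨i, i2, hi⟩ := edge_two _ _ hle (show rk y = rk x + 2 by omega)
      refine mem_union_right _ (mem_image.2 ⟨(x, i, i2),
        mem_product.2 ⟨hxQ, mem_product.2 ⟨mem_univ _, mem_univ _⟩⟩, ?_⟩)
      rw [hi]
  have hinj : Function.Injective (Sym2.map (fun a : (U : Set (L k)) => a.1.1)) :=
    Sym2.map.injective (Subtype.val_injective.comp Subtype.val_injective)
  have h1 : ((G k).induce (U : Set (L k))).edgeSet.ncard ≤
      ((A ∪ B : Finset (Sym2 (Fin k → ℕ))) : Set (Sym2 (Fin k → ℕ))).ncard := by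
    refine Set.ncard_le_ncard_of_injOn (Sym2.map (fun a : (U : Set (L k)) => a.1.1)) ?_
      hinj.injOn (Finset.finite_toSet _)
    intro e he
    induction e using Sym2.ind with
    | h a b =>
      rw [SimpleGraph.mem_edgeSet] at he
      have he' : (G k).Adj a.1 b.1 := he
      unfold G at he'
      rw [SimpleGraph.fromRel_adj] at he'
      rw [Sym2.map_mk, Finset.mem_coe]
      rcases he'.2 with d | d
      · exact key a.1 a.2 b.1 b.2 he'.1 d
      · rw [Sym2.eq_swap]
        exact key b.1 b.2 a.1 a.2 he'.1.symm d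
  rw [Set.ncard_coe_finset] at h1
  have hA' : A.card ≤ k * U.card := by
    refine card_image_le.trans (le_of_eq ?_)
    rw [card_product, card_univ, Fintype.card_fin, mul_comm]
  have hB' : B.card ≤ k ^ 2 * Q.card := by
    refine card_image_le.trans (le_of_eq ?_)
    rw [card_product, card_product, card_univ, Fintype.card_fin]
    ring
  exact h1.trans ((card_union_le _ _).trans (Nat.add_le_add hA' hB'))

end Pool.Agent.Lib.MP_75c11f_co.Sh
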