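import Mathlib

/-! Gaussian sums and perturbed linear recursions. -/

set_option autoImplicit false

namespace Pool.Agent.Lib.MP_75c11f_co.Sh

open Finset Real MeasureTheory

theorem gauss_anti {A : ℝ} (hA : 0 < A) {s : Set ℝ} (hs : s ⊆ Set.Ici 0) :
    AntitoneOn (fun u : ℝ => exp (-(1 / A) * u ^ 2)) s := fun x hx y _ hxy =>
  exp_le_exp.2 (mul_le_mul_of_nonpos_left (pow_le_pow_left₀ (hs hx) hxy 2)
    (neg_nonpos.2 (by positivity)))

theorem gauss_val {A : ℝ} :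
    ∫ u in Set.Ioi (0 : ℝ), exp (-(1 / A) * u ^ 2) = sqrt (π * A) / 2 := by
  rw [integral_gaussian_Ioi, div_div_eq_mul_div, div_one]

theorem gauss_up {A : ℝ} (hA : 0 < A) (n : ℕ) :
    ∑ i ∈ range n, exp (-((i : ℝ) ^ 2 / A)) ≤ 1 + sqrt (π * A) / 2 := by
  have hi := integrable_exp_neg_mul_sq (b := 1 / A) (by positivity)
  have h1 := AntitoneOn.sum_le_integral (x₀ := 0) (a := n)
    (gauss_anti hA (s := Set.Icc 0 (0 + n)) fun x hx => hx.1)
  have h2 : ∫ u in (0 : ℝ)..(0 + n), exp (-(1 / A) * u ^ 2) ≤ sqrt (π * A) / 2 := by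
    rw [← gauss_val, intervalIntegral.integral_of_le (by positivity)]
    exact setIntegral_mono_set hi.integrableOn
      (Filter.Eventually.of_forall fun u => (exp_pos _).le) Set.Ioc_subset_Ioi_self.eventuallyLE
  have h3 : ∑ i ∈ range n, exp (-((i : ℝ) ^ 2 / A)) ≤
      ∑ i ∈ range (n + 1), exp (-((i : ℝ) ^ 2 / A)) := by
    rw [sum_range_succ]
    linarith [exp_pos (-((n : ℝ) ^ 2 / A))]
  have h4 : ∑ i ∈ range n, exp (-(((i + 1 : ℕ) : ℝ) ^ 2 / A)) =
      ∑ i ∈ range n, exp (-(1 / A) * ((0 : ℝ) + ((i + 1 : ℕ) : ℝ)) ^ 2) :=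
    sum_congr rfl fun i _ => by congr 1; ring
  rw [sum_range_succ', h4] at h3
  simp only [Nat.cast_zero, ne_eq, OfNat.ofNat_ne_zero, not_false_eq_true, zero_pow, zero_div,
    neg_zero, exp_zero] at h3
  linarith

theorem gauss_low {A : ℝ} (hA : 0 < A) {n : ℕ} (hn : 0 < n) :
    sqrt (π * A) / 2 - A / n ≤ ∑ i ∈ range n, exp (-((i : ℝ) ^ 2 / A)) := by
  have hn' : (0 : ℝ) < n := by exact_mod_cast hn
  have hi := integrable_exp_neg_mul_sq (b := 1 / A) (by positivity)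
  have h1 := AntitoneOn.integral_le_sum (x₀ := 0) (a := n)
    (gauss_anti hA (s := Set.Icc 0 (0 + n)) fun x hx => hx.1)
  have h2 := intervalIntegral.integral_interval_add_Ioi (a := 0) (b := n)
    (f := fun u : ℝ => exp (-(1 / A) * u ^ 2)) hi.integrableOn hi.integrableOn
  have h3 : ∫ u in Set.Ioi (n : ℝ), exp (-(1 / A) * u ^ 2) ≤ A / n := by
    have h4 := integral_Ioi_rpow_of_lt (a := -2) (by norm_num) hn'
    have h5 := integrableOn_Ioi_rpow_of_lt (a := -2) (by norm_num) hn'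
    refine (setIntegral_mono_on hi.integrableOn (h5.const_mul A) measurableSet_Ioi
      fun u hu => ?_).trans (le_of_eq ?_)
    · have hu' : 0 < u := hn'.trans hu
      have h6 : u ^ 2 / A ≤ exp (u ^ 2 / A) := by linarith [add_one_le_exp (u ^ 2 / A)]
      rw [show -(1 / A) * u ^ 2 = -(u ^ 2 / A) by ring, exp_neg, rpow_neg hu'.le, rpow_two,
        ← div_eq_mul_inv]
      exact (inv_anti₀ (by positivity) h6).trans (inv_div _ _).le
    · rw [integral_const_mul, h4, show (-2 : ℝ) + 1 = -1 by norm_num, rpow_neg_one]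
      field_simp
  have h7 : ∑ i ∈ range n, exp (-((i : ℝ) ^ 2 / A)) =
      ∑ i ∈ range n, exp (-(1 / A) * ((0 : ℝ) + (i : ℝ)) ^ 2) :=
    sum_congr rfl fun i _ => by congr 1; ring
  rw [gauss_val] at h2
  rw [zero_add] at h1
  rw [h7]
  linarith

theorem rec_up (a t : ℕ → ℝ) (β : ℝ) (n : ℕ) (hβ : 0 ≤ β) (ht : ∀ i < n, 0 ≤ t i)
    (h : ∀ i < n, a (i + 1) ≤ a i * exp (-t i) + β) :
    ∀ i ≤ n, a i ≤ a 0 * exp (-∑ l ∈ range i, t l) + i * β := by
  intro i
  induction i with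
  | zero => simp
  | succ i ih =>
    intro hi
    have h1 := mul_le_mul_of_nonneg_right (ih (by omega)) (exp_pos (-t i)).le
    have h2 : exp (-t i) ≤ 1 := exp_le_one_iff.2 (neg_nonpos.2 (ht i hi))
    have h3 := mul_le_mul_of_nonneg_left h2 (mul_nonneg (Nat.cast_nonneg (α := ℝ) i) hβ)
    rw [sum_range_succ, neg_add, exp_add]
    push_cast
    nlinarith [h i hi]

theorem rec_low (a t : ℕ → ℝ) (β : ℝ) (n : ℕ) (hβ : 0 ≤ β) (ht : ∀ i < n, 0 ≤ t i)
    (h : ∀ i < n, a i * exp (-t i) - β ≤ a (i + 1)) :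
    ∀ i ≤ n, a 0 * exp (-∑ l ∈ range i, t l) - i * β ≤ a i := fun i hi => by
  have := rec_up (fun i => -a i) t β n hβ ht (fun i hi => by linarith [h i hi]) i hi
  linarith

end Pool.Agent.Lib.MP_75c11f_co.Sh
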