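import Pool.Agent.Lib.MP_75c11f_co.Sh.Defs

/-! The recursion for the level flows. -/

set_option autoImplicit false

noncomputable section

namespace Pool.Agent.Lib.MP_75c11f_co.Sh

open Finset

variable {k : ℕ}

theorem inn_sub (x : L k) : inn x - out x = 2 * (rk x : ℝ) - (k : ℝ) ^ 2 := by
  have h : ∀ n : ℕ, ∑ i ∈ range n, (2 * ((i : ℝ) + 1) - 2 * k - 1) =
      (n : ℝ) ^ 2 - 2 * k * n := fun n => by
    induction n with
    | zero => simp
    | succ n ih =>
      rw [sum_range_succ, ih]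
      push_cast
      ring
  have h1 := div_eq x
  rw [h] at h1
  unfold inn out
  rw [h1]
  ring

theorem out_nonneg (x : L k) : 0 ≤ out x := sum_nonneg fun y _ => wt_nonneg x y

theorem fl_nonneg (k j : ℕ) : 0 ≤ fl k j := sum_nonneg fun x _ => out_nonneg x

theorem fl_in (k j : ℕ) : ∑ x ∈ lev k (j + 1), inn x = fl k j := by
  have h : ∀ x y : L k, (if rk x = j + 1 then wt y x else 0) =
      if rk y = j then wt y x else 0 := fun x y => by
    by_cases h : wt y x = 0
    · simp [h]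
    · simp [(wt_rk y x h).1]
  calc _ = ∑ x : L k, ∑ y, if rk x = j + 1 then wt y x else 0 := by
        rw [lev, sum_filter]
        exact sum_congr rfl fun x _ => by split_ifs <;> simp [inn]
    _ = ∑ y : L k, ∑ x, if rk y = j then wt y x else 0 := by
        rw [sum_comm]
        simp only [h]
    _ = _ := by
        rw [fl, lev, sum_filter]
        exact sum_congr rfl fun x _ => by split_ifs <;> simp [out]

theorem fl_succ (k j : ℕ) :
    fl k (j + 1) = fl k j + ((k : ℝ) ^ 2 - 2 * (j + 1)) * (lev k (j + 1)).card := by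
  rw [← fl_in k j, fl, mul_comm, ← nsmul_eq_mul, ← sum_const, ← sum_add_distrib]
  refine sum_congr rfl fun x hx => ?_
  have h := inn_sub x
  rw [mem_lev.1 hx] at h
  push_cast at h
  linarith

theorem fl_zero (k : ℕ) : fl k 0 = (k : ℝ) ^ 2 * (lev k 0).card := by
  rw [fl, mul_comm, ← nsmul_eq_mul, ← sum_const]
  refine sum_congr rfl fun x hx => ?_
  have h := inn_sub x
  have h0 : inn x = 0 := sum_eq_zero fun y _ => by
    by_contra hy
    have := (wt_rk y x hy).1
    have := mem_lev.1 hx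
    omega
  rw [mem_lev.1 hx, h0] at h
  push_cast at h
  linarith

theorem src_aux (k j : ℕ) :
    ∑ x : L k, (if rk x ≤ j then (k : ℝ) ^ 2 - 2 * rk x else 0) = fl k j := by
  induction j with
  | zero =>
    rw [fl_zero, mul_comm, ← nsmul_eq_mul, ← sum_const, lev, sum_filter]
    refine sum_congr rfl fun x _ => ?_
    by_cases h : rk x = 0 <;> simp [h]
  | succ j ih =>
    rw [fl_succ, ← ih, mul_comm, ← nsmul_eq_mul, ← sum_const, lev, sum_filter, ← sum_add_distrib]
    refine sum_congr rfl fun x _ => ?_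
    by_cases h : rk x = j + 1
    · simp [h]
    · have : rk x ≤ j + 1 ↔ rk x ≤ j := by omega
      simp [h, this]

theorem src_eq (k : ℕ) : ∑ x : L k, (max (inn x) (out x) - inn x) = fl k (k ^ 2 / 2) := by
  rw [← src_aux]
  refine sum_congr rfl fun x _ => ?_
  have h := inn_sub x
  split_ifs with a
  · have a1 : ((2 * rk x : ℕ) : ℝ) ≤ ((k ^ 2 : ℕ) : ℝ) := Nat.cast_le.2 (by omega)
    push_cast at a1
    rw [max_eq_right (by linarith)]
    linarith
  · have a1 : ((k ^ 2 : ℕ) : ℝ) ≤ ((2 * rk x : ℕ) : ℝ) := Nat.cast_le.2 (by omega)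
    push_cast at a1
    rw [max_eq_left (by linarith), sub_self]

theorem sum_bad (k : ℕ) (θ : ℝ) (S : Finset (L k)) :
    ∑ x ∈ S, (if x ∈ bad k θ then (k : ℝ) ^ 3 else 0) ≤ (k : ℝ) ^ 3 * (bad k θ).card := by
  rw [← sum_filter, sum_const, nsmul_eq_mul, mul_comm]
  exact mul_le_mul_of_nonneg_left
    (Nat.cast_le.2 (card_le_card fun x hx => (mem_filter.1 hx).2)) (by positivity)

theorem fl_le (k j : ℕ) {θ : ℝ} (hθ : 0 ≤ θ) :
    fl k j ≤ (1 + θ) * (k : ℝ) ^ 3 / 3 * (lev k j).card + (k : ℝ) ^ 3 * (bad k θ).card := by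
  refine le_trans ?_ (add_le_add le_rfl (sum_bad k θ (lev k j)))
  rw [fl, mul_comm _ ((lev k j).card : ℝ), ← nsmul_eq_mul, ← sum_const, ← sum_add_distrib]
  refine sum_le_sum fun x _ => ?_
  split_ifs with h
  · have : 0 ≤ (1 + θ) * (k : ℝ) ^ 3 / 3 := by positivity
    linarith [show out x ≤ _ from out_le x]
  · linarith [(abs_le.1 (not_lt.1 (mem_bad.not.1 h))).2]

theorem le_sum_out (S : Finset (L k)) {θ : ℝ} (hθ : 0 ≤ θ) :
    (1 - θ) * (k : ℝ) ^ 3 / 3 * S.card ≤ ∑ x ∈ S, out x + (k : ℝ) ^ 3 * (bad k θ).card := by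
  refine le_trans ?_ (add_le_add le_rfl (sum_bad k θ S))
  rw [mul_comm _ (S.card : ℝ), ← nsmul_eq_mul, ← sum_const, ← sum_add_distrib]
  refine sum_le_sum fun x _ => ?_
  split_ifs with h
  · have h1 : 0 ≤ θ * (k : ℝ) ^ 3 := by positivity
    have h2 : 0 ≤ (k : ℝ) ^ 3 := by positivity
    linarith [out_nonneg x]
  · linarith [(abs_le.1 (not_lt.1 (mem_bad.not.1 h))).1]

theorem le_fl (k j : ℕ) {θ : ℝ} (hθ : 0 ≤ θ) :
    (1 - θ) * (k : ℝ) ^ 3 / 3 * (lev k j).card ≤ fl k j + (k : ℝ) ^ 3 * (bad k θ).card :=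
  le_sum_out _ hθ

end Pool.Agent.Lib.MP_75c11f_co.Sh
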