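import Pool.Agent.Lib.MP_75c11f_co.Sh.Seq
import Pool.Agent.Lib.MP_75c11f_co.Sh.Level
import Pool.Agent.Lib.MP_75c11f_co.Sh.Card
import Pool.Agent.Lib.MP_75c11f_co.Sh.Conc

/-! The size of the central flow and of the central levels. -/

set_option autoImplicit false

noncomputable section

namespace Pool.Agent.Lib.MP_75c11f_co.Sh

open Finset Real Filter

theorem half_cast (k : ℕ) : 2 * ((k ^ 2 / 2 : ℕ) : ℝ) ≤ (k : ℝ) ^ 2 ∧
    (k : ℝ) ^ 2 ≤ 2 * ((k ^ 2 / 2 : ℕ) : ℝ) + 1 :=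
  ⟨by exact_mod_cast (show 2 * (k ^ 2 / 2) ≤ k ^ 2 by omega),
    by exact_mod_cast (show k ^ 2 ≤ 2 * (k ^ 2 / 2) + 1 by omega)⟩

theorem beta_le {k : ℕ} (hk : 4 ≤ k) {b N : ℝ} (hb0 : 0 ≤ b) (hb : (k : ℝ) ^ 8 * b ≤ N) :
    4 * (((k ^ 2 / 2 : ℕ) : ℝ) + 1) ^ 2 * ((k : ℝ) ^ 3 * b) ≤ N := by
  have hk' : (4 : ℝ) ≤ k := by exact_mod_cast hk
  have h1 : ((k ^ 2 / 2 : ℕ) : ℝ) + 1 ≤ (k : ℝ) ^ 2 := by nlinarith [(half_cast k).1]
  calc _ ≤ k * ((k : ℝ) ^ 2) ^ 2 * ((k : ℝ) ^ 3 * b) := by gcongr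
    _ = (k : ℝ) ^ 8 * b := by ring
    _ ≤ N := hb

theorem mass_low {k : ℕ} (hk : 4 ≤ k) {θ : ℝ} (h0 : 0 ≤ θ) (h1 : θ ≤ 1)
    (hb : (k : ℝ) ^ 8 * (bad k θ).card ≤ ((2 * k).choose k : ℝ)) :
    ((1 - θ) * (k : ℝ) ^ 3 / 3 - 1) * ((2 * k).choose k : ℝ) ≤
      fl k (k ^ 2 / 2) * (4 + sqrt (π * ((1 + θ) * (k : ℝ) ^ 3 / 3))) := by
  have hk' : (4 : ℝ) ≤ k := by exact_mod_cast hk
  have hβ := beta_le hk (Nat.cast_nonneg _) hb
  have hβ0 : 0 ≤ (k : ℝ) ^ 3 * (bad k θ).card := by positivity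
  have a1 := seq_up (fl k) (fun j => ((lev k j).card : ℝ)) ((k : ℝ) ^ 2)
    ((1 + θ) * (k : ℝ) ^ 3 / 3) _ (k ^ 2 / 2) (half_cast k).1
    (by nlinarith [mul_nonneg h0 (pow_nonneg (Nat.cast_nonneg (α := ℝ) k) 3)])
    (by positivity) hβ0 (fl_nonneg k) (fun _ => Nat.cast_nonneg _) (fl_succ k)
    fun j => fl_le k j h0
  have a2 : ((2 * k).choose k : ℝ) ≤
      2 * ∑ j ∈ range (k ^ 2 / 2 + 1), ((lev k j).card : ℝ) := by exact_mod_cast half_le k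
  have a3 := sum_le_sum (s := range (k ^ 2 / 2 + 1)) fun j _ => le_fl k j h0
  rw [← mul_sum, sum_add_distrib, sum_range_succ (fl k), sum_const, card_range,
    nsmul_eq_mul] at a3
  have a4 := mul_le_mul_of_nonneg_left a2
    (show 0 ≤ (1 - θ) * (k : ℝ) ^ 3 / 3 by have := sub_nonneg.2 h1; positivity)
  have a5 := mul_nonneg (Nat.cast_nonneg (α := ℝ) (k ^ 2 / 2)) hβ0
  have a6 := mul_nonneg (sq_nonneg ((k ^ 2 / 2 : ℕ) : ℝ)) hβ0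
  rw [Nat.cast_add, Nat.cast_one] at a3
  linarith

theorem mass_up {k : ℕ} (hk : 4 ≤ k) {θ : ℝ} (h0 : 0 ≤ θ) (h1 : θ ≤ 1 / 2)
    (hθk : 9 ≤ θ * k) (hb : (k : ℝ) ^ 8 * (bad k θ).card ≤ ((2 * k).choose k : ℝ)) :
    fl k (k ^ 2 / 2) * (sqrt (π * ((1 - θ) * (k : ℝ) ^ 3 / 3 / (1 + θ))) - 2 * k - 2) ≤
      ((1 + θ) * (k : ℝ) ^ 3 / 3 + 1) * ((2 * k).choose k : ℝ) := by
  have hk' : (4 : ℝ) ≤ k := by exact_mod_cast hk
  have hβ := beta_le hk (Nat.cast_nonneg _) hb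
  have hβ0 : 0 ≤ (k : ℝ) ^ 3 * (bad k θ).card := by positivity
  have hθ : 0 < 1 - θ := by linarith
  have a1 := seq_low (fl k) (fun j => ((lev k j).card : ℝ)) ((k : ℝ) ^ 2)
    ((1 - θ) * (k : ℝ) ^ 3 / 3) _ θ (k ^ 2 / 2) (half_cast k).1 (half_cast k).2 h0
    (by
      have b1 : 1 + θ ≤ (1 - θ) * (θ * k) / 3 := by nlinarith
      calc _ ≤ (1 - θ) * (θ * k) / 3 * (k : ℝ) ^ 2 := by gcongr
        _ = _ := by ring)
    (by positivity) hβ0 (fl_nonneg k) (fun _ => Nat.cast_nonneg _) (fl_succ k)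
    fun j => le_fl k j h0
  have a2 : 2 * ∑ j ∈ range (k ^ 2 / 2), ((lev k j).card : ℝ) ≤ ((2 * k).choose k : ℝ) := by
    exact_mod_cast le_half k
  have a3 := sum_le_sum (s := range (k ^ 2 / 2)) fun j _ => fl_le k j h0
  rw [sum_add_distrib, ← mul_sum, sum_const, card_range, nsmul_eq_mul] at a3
  have a4 := mul_le_mul_of_nonneg_left a2 (show 0 ≤ (1 + θ) * (k : ℝ) ^ 3 / 3 by positivity)
  have a5 := mul_nonneg (Nat.cast_nonneg (α := ℝ) (k ^ 2 / 2)) hβ0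
  have a6 := mul_nonneg (sq_nonneg ((k ^ 2 / 2 : ℕ) : ℝ)) hβ0
  have a7 : (1 - θ) * (k : ℝ) ^ 3 / 3 / (1 + θ) / ((k ^ 2 / 2 + 1 : ℕ) : ℝ) ≤ k := by
    rw [div_le_iff₀ (by positivity), div_le_iff₀ (by positivity), Nat.cast_add, Nat.cast_one]
    calc _ ≤ 1 * (k : ℝ) ^ 3 / 2 := by gcongr <;> linarith
      _ = k * ((k : ℝ) ^ 2 / 2) * 1 := by ring
      _ ≤ _ := by gcongr <;> linarith [(half_cast k).2]
  have a8 := mul_le_mul_of_nonneg_left a7 (fl_nonneg k (k ^ 2 / 2))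
  linarith

theorem sqrt_plus {θ x : ℝ} (h0 : 0 ≤ θ) (hx : 0 ≤ x) :
    sqrt (π * ((1 + θ) * x / 3)) ≤ (1 + θ) * (sqrt (3 * π) * sqrt x) / 3 := by
  refine sqrt_le_iff.2 ⟨by positivity, ?_⟩
  rw [div_pow, mul_pow, mul_pow, sq_sqrt hx, sq_sqrt (by positivity)]
  have := mul_nonneg (mul_nonneg pi_pos.le hx) (mul_nonneg h0 (add_nonneg zero_le_one h0))
  linarith

theorem sqrt_minus {θ x : ℝ} (h0 : 0 ≤ θ) (h1 : θ ≤ 1) (hx : 0 ≤ x) :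
    (1 - θ) * (sqrt (3 * π) * sqrt x) / 3 ≤ sqrt (π * ((1 - θ) * x / 3 / (1 + θ))) := by
  refine le_sqrt_of_sq_le ?_
  rw [div_pow, mul_pow, mul_pow, sq_sqrt hx, sq_sqrt (by positivity), ← mul_div_assoc,
    le_div_iff₀ (by positivity)]
  have := mul_nonneg (mul_nonneg pi_pos.le hx) (mul_nonneg (sub_nonneg.2 h1) (sq_nonneg θ))
  linarith

theorem three_le_g : 3 ≤ sqrt (3 * π) := le_sqrt_of_sq_le (by linarith [pi_gt_three])

theorem g_le_four : sqrt (3 * π) ≤ 4 := sqrt_le_iff.2 ⟨by norm_num, by linarith [pi_lt_four]⟩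

theorem s_large (C : ℝ) : ∀ᶠ k : ℕ in atTop, C * k ≤ sqrt ((k : ℝ) ^ 3) := by
  filter_upwards [tendsto_natCast_atTop_atTop.eventually_ge_atTop (C ^ 2)] with k hk
  refine le_sqrt_of_sq_le ?_
  have := mul_le_mul_of_nonneg_right hk (sq_nonneg (k : ℝ))
  linarith

theorem mass {θ : ℝ} (h0 : 0 < θ) (h1 : θ ≤ 1 / 2) : ∀ᶠ k : ℕ in atTop,
    (1 - 2 * θ) * (sqrt ((k : ℝ) ^ 3) * ((2 * k).choose k : ℝ)) ≤
      (1 + 2 * θ) * (sqrt (3 * π) * fl k (k ^ 2 / 2)) ∧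
    (1 - 2 * θ) * (sqrt (3 * π) * fl k (k ^ 2 / 2)) ≤
      (1 + 2 * θ) * (sqrt ((k : ℝ) ^ 3) * ((2 * k).choose k : ℝ)) := by
  filter_upwards [bad_small h0, eventually_ge_atTop 4, s_large (4 / θ),
    (tendsto_natCast_atTop_atTop.const_mul_atTop h0).eventually_ge_atTop 9] with k hb hk hs hθk
  have hk' : (4 : ℝ) ≤ k := by exact_mod_cast hk
  have h3 : 0 ≤ (k : ℝ) ^ 3 := by positivity
  have a1 := mass_low hk h0.le (by linarith) hb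
  have a2 := mass_up hk h0.le h1 hθk hb
  have a3 := mul_le_mul_of_nonneg_left (sqrt_plus h0.le h3) (fl_nonneg k (k ^ 2 / 2))
  have a4 := mul_le_mul_of_nonneg_left (sqrt_minus h0.le (by linarith) h3)
    (fl_nonneg k (k ^ 2 / 2))
  have hM := fl_nonneg k (k ^ 2 / 2)
  have hN : 0 ≤ ((2 * k).choose k : ℝ) := Nat.cast_nonneg _
  have hss := sq_sqrt h3
  have hs0 : 0 < sqrt ((k : ℝ) ^ 3) := by positivity
  have hg := three_le_g
  generalize sqrt (π * ((1 + θ) * (k : ℝ) ^ 3 / 3)) = u at *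
  generalize sqrt (π * ((1 - θ) * (k : ℝ) ^ 3 / 3 / (1 + θ))) = v at *
  generalize sqrt ((k : ℝ) ^ 3) = s at *
  generalize sqrt (3 * π) = g at *
  generalize fl k (k ^ 2 / 2) = M at *
  generalize ((2 * k).choose k : ℝ) = N at *
  rw [div_mul_eq_mul_div, div_le_iff₀ h0] at hs
  have b1 : 12 * (k : ℝ) ≤ θ * (g * s) := by nlinarith
  have b2 : 3 ≤ θ * (k : ℝ) ^ 3 := by nlinarith [sq_nonneg (k : ℝ)]
  have b3 := mul_le_mul_of_nonneg_left b1 hM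
  have b4 := mul_le_mul_of_nonneg_left b2 hN
  have b5 := mul_le_mul_of_nonneg_left hk' hM
  rw [← hss] at a1 a2 b4
  constructor
  · refine le_of_mul_le_mul_left ?_ hs0
    linarith
  · refine le_of_mul_le_mul_left ?_ hs0
    linarith

theorem lev_le (k j : ℕ) : ((lev k j).card : ℝ) ≤ ((2 * k).choose k : ℝ) := by
  rw [← card_L]
  exact_mod_cast card_le_univ _

theorem fl_near (k j : ℕ) (h1 : k ^ 2 / 2 ≤ j + 1) (h2 : j ≤ k ^ 2 / 2 + 1) :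
    fl k (k ^ 2 / 2) - 2 * ((2 * k).choose k : ℝ) ≤ fl k j := by
  have hN : 0 ≤ ((2 * k).choose k : ℝ) := Nat.cast_nonneg _
  have hc := half_cast k
  rcases (show k ^ 2 / 2 = j + 1 ∨ j = k ^ 2 / 2 ∨ j = k ^ 2 / 2 + 1 by omega) with h | h | h
  · rw [h] at hc ⊢
    rw [Nat.cast_add, Nat.cast_one] at hc
    have := mul_le_mul_of_nonneg_right (show (k : ℝ) ^ 2 - 2 * (j + 1) ≤ 1 by linarith)
      (Nat.cast_nonneg (α := ℝ) (lev k (j + 1)).card)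
    linarith [fl_succ k j, lev_le k (j + 1)]
  · rw [h]
    linarith
  · rw [h]
    have := mul_le_mul_of_nonneg_right
      (show -2 ≤ (k : ℝ) ^ 2 - 2 * (((k ^ 2 / 2 : ℕ) : ℝ) + 1) by linarith)
      (Nat.cast_nonneg (α := ℝ) (lev k (k ^ 2 / 2 + 1)).card)
    linarith [fl_succ k (k ^ 2 / 2), lev_le k (k ^ 2 / 2 + 1)]

theorem lev_low {θ : ℝ} (h0 : 0 < θ) (h1 : θ ≤ 1 / 2) : ∀ᶠ k : ℕ in atTop,
    ∀ j, k ^ 2 / 2 ≤ j + 1 → j ≤ k ^ 2 / 2 + 1 → 3 * (1 - 6 * θ) * ((2 * k).choose k : ℝ) ≤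
      sqrt (3 * π) * sqrt ((k : ℝ) ^ 3) * (lev k j).card := by
  filter_upwards [bad_small h0, eventually_ge_atTop 1, s_large (72 / θ), mass h0 h1]
    with k hb hk hs hm j j1 j2
  have hk' : (1 : ℝ) ≤ k := by exact_mod_cast hk
  have h3 : 0 ≤ (k : ℝ) ^ 3 := by positivity
  have a1 := fl_near k j j1 j2
  have a2 := fl_le k j h0.le
  have a3 : (k : ℝ) ^ 3 * (bad k θ).card ≤ (k : ℝ) ^ 8 * (bad k θ).card :=
    mul_le_mul_of_nonneg_right (pow_le_pow_right₀ hk' (by norm_num)) (Nat.cast_nonneg _)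
  have a4 := hm.1
  have hN : 0 ≤ ((2 * k).choose k : ℝ) := Nat.cast_nonneg _
  have hss := sq_sqrt h3
  have hs0 : 0 < sqrt ((k : ℝ) ^ 3) := by positivity
  have hg := three_le_g
  have hg' := g_le_four
  generalize sqrt ((k : ℝ) ^ 3) = s at *
  generalize sqrt (3 * π) = g at *
  generalize fl k (k ^ 2 / 2) = M at *
  generalize ((2 * k).choose k : ℝ) = N at *
  generalize ((lev k j).card : ℝ) = l at *
  rw [div_mul_eq_mul_div, div_le_iff₀ h0] at hs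
  have b0 : 0 ≤ (1 + 2 * θ) * g := by positivity
  have b1 : M - 3 * N ≤ (1 + θ) * s ^ 2 / 3 * l := by
    rw [hss]
    linarith
  have b2 := mul_le_mul_of_nonneg_left b1 b0
  have b3 : 9 * ((1 + 2 * θ) * g) ≤ s * θ := by nlinarith
  have b4 := mul_le_mul_of_nonneg_right b3 hN
  have b5 : (3 - 7 * θ) * N ≤ (1 + θ) * (1 + 2 * θ) * (g * s * l) := by
    refine le_of_mul_le_mul_left ?_ hs0
    linarith
  refine le_of_mul_le_mul_left (le_trans ?_ b5) (by positivity)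
  have b6 := mul_nonneg h0.le hN
  have b7 := mul_nonneg h0.le b6
  have b8 := mul_nonneg h0.le b7
  linarith

end Pool.Agent.Lib.MP_75c11f_co.Sh
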