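import Pool.Agent.Lib.MP_75c11f_co.Sh.Mass
import Pool.Agent.Lib.MP_75c11f_co.Sh.Edge

/-! Sets with few comparable pairs, at and below the threshold. -/

set_option autoImplicit false

noncomputable section

namespace Pool.Agent.Lib.MP_75c11f_co.Sh

open Finset Real Filter

theorem rpow_eq (k : ℕ) : (k : ℝ) ^ (-(3 / 2 : ℝ)) = (sqrt ((k : ℝ) ^ 3))⁻¹ := by
  rw [rpow_neg (Nat.cast_nonneg k), sqrt_eq_rpow, ← rpow_natCast, ← rpow_mul (Nat.cast_nonneg k)]
  norm_num

theorem four_le {k : ℕ} (hk : 4 ≤ k) : (4 : ℝ) ^ k ≤ k * ((2 * k).choose k : ℝ) := by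
  have := (Nat.four_pow_lt_mul_centralBinom k hk).le
  rw [Nat.centralBinom_eq_two_mul_choose] at this
  exact_mod_cast this

theorem cube_le : ∀ᶠ k : ℕ in atTop, (k : ℝ) ^ 3 ≤ ((2 * k).choose k : ℝ) := by
  filter_upwards [eventually_ge_atTop 4, (tendsto_pow_const_div_const_pow_of_one_lt 4
    (r := 4) (by norm_num)).eventually (gt_mem_nhds one_pos)] with k hk h
  have hk' : (4 : ℝ) ≤ k := by exact_mod_cast hk
  rw [div_lt_one (by positivity)] at h
  refine le_of_mul_le_mul_left ?_ (show (0 : ℝ) < k by linarith)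
  linarith [four_le hk]

theorem neg {c₁ c₂ : ℝ} (h1 : c₁ ≤ 6 / sqrt (3 * π)) (h2 : 0 < c₂) :
    ∀ᶠ k : ℕ in atTop, ∃ U : Finset (L k),
      c₁ * (k : ℝ) ^ (-(3 / 2 : ℝ)) * ((2 * k).choose k : ℝ) ≤ (U.card : ℝ) ∧
      (((G k).induce (U : Set (L k))).edgeSet.ncard : ℝ) < c₂ * (k : ℝ) ^ 2 * (U.card : ℝ) := by
  classical
  obtain ⟨θ, t0, t1, t2⟩ : ∃ θ : ℝ, 0 < θ ∧ θ ≤ 1 / 36 ∧ θ ≤ c₂ / 36 :=
    ⟨min (1 / 36) (c₂ / 36), by positivity, min_le_left _ _, min_le_right _ _⟩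
  filter_upwards [lev_low t0 (by linarith), cube_le, eventually_ge_atTop 2, s_large (1 / θ),
    (tendsto_natCast_atTop_atTop.const_mul_atTop h2).eventually_ge_atTop 3] with k hl hN hk hs hc
  have hk' : (2 : ℝ) ≤ k := by exact_mod_cast hk
  obtain ⟨j, hj⟩ : ∃ j, k ^ 2 / 2 = j + 1 :=
    ⟨k ^ 2 / 2 - 1, by have := Nat.pow_le_pow_left hk 2; omega⟩
  rw [hj] at hl
  have l0 := hl j (by omega) (by omega)
  have l1 := hl (j + 1) (by omega) (by omega)
  have l2 := hl (j + 2) (by omega) (by omega)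
  have hss := sq_sqrt (show 0 ≤ (k : ℝ) ^ 3 by positivity)
  have hs0 : 0 < sqrt ((k : ℝ) ^ 3) := by positivity
  have hg := three_le_g
  have hg' := g_le_four
  rw [rpow_eq]
  generalize sqrt ((k : ℝ) ^ 3) = s at *
  generalize sqrt (3 * π) = g at *
  generalize ((2 * k).choose k : ℝ) = N at *
  have hgs : 0 < g * s := by positivity
  obtain ⟨w, hw⟩ : ∃ w : ℝ, 3 * N = g * s * w := ⟨3 * N / (g * s), by field_simp⟩
  have key : ∀ l : ℝ, 3 * (1 - 6 * θ) * N ≤ g * s * l → (1 - 6 * θ) * w ≤ l := fun l h => by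
    refine le_of_mul_le_mul_left ?_ hgs
    calc _ = (1 - 6 * θ) * (g * s * w) := by ring
      _ = 3 * (1 - 6 * θ) * N := by rw [← hw]; ring
      _ ≤ _ := h
  replace l0 := key _ l0
  replace l1 := key _ l1
  replace l2 := key _ l2
  rw [div_mul_eq_mul_div, div_le_iff₀ t0] at hs
  have w1 : 3 * s ≤ g * w := by
    refine le_of_mul_le_mul_left ?_ hs0
    linarith
  have w0 : 0 ≤ w := by nlinarith
  have w2 : 1 < θ * w := by
    have := mul_le_mul_of_nonneg_right hg' w0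
    have := mul_le_mul_of_nonneg_left (show 3 * s ≤ 4 * w by linarith) t0.le
    linarith
  have w3 := mul_le_mul_of_nonneg_right t1 w0
  have q1 : (⌈12 * θ * w⌉₊ : ℝ) < 12 * θ * w + 1 := Nat.ceil_lt_add_one (by positivity)
  obtain ⟨Q, hQ, hQc⟩ := exists_subset_card_eq (s := lev k j) (n := ⌈12 * θ * w⌉₊)
    (by exact_mod_cast (show (⌈12 * θ * w⌉₊ : ℝ) ≤ (lev k j).card by linarith))
  have hQ' : ∀ x ∈ Q, rk x = j := fun x hx => mem_lev.1 (hQ hx)
  have hP : ∀ x ∈ lev k (j + 1) ∪ lev k (j + 2), rk x = j + 1 ∨ rk x = j + 2 := fun x hx => by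
    simpa only [mem_union, mem_lev] using hx
  have c1 : (lev k (j + 1) ∪ lev k (j + 2) ∪ Q).card =
      (lev k (j + 1)).card + (lev k (j + 2)).card + Q.card := by
    rw [card_union_of_disjoint, card_union_of_disjoint]
    · exact disjoint_left.2 fun x a b => by
        have := mem_lev.1 a
        have := mem_lev.1 b
        omega
    · exact disjoint_left.2 fun x a b => by
        have := hP x a
        have := hQ' x b
        omega
  have e1 := edges_le k j _ Q hQ' hP _ fun x hx => mem_union.1 hx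
  refine ⟨lev k (j + 1) ∪ lev k (j + 2) ∪ Q, ?_⟩
  have q2 := Nat.le_ceil (12 * θ * w)
  rw [← hQc] at q1 q2
  have c2 : 2 * w ≤ ((lev k (j + 1) ∪ lev k (j + 2) ∪ Q).card : ℝ) := by
    rw [c1]
    push_cast
    linarith
  have e2 := (Nat.cast_le (α := ℝ)).2 e1
  push_cast at e2
  generalize ((lev k (j + 1) ∪ lev k (j + 2) ∪ Q).card : ℝ) = u at *
  constructor
  · refine le_trans ?_ c2
    have hN0 : 0 ≤ N := le_trans (by positivity) hN
    calc _ ≤ 6 / g * s⁻¹ * N := by gcongr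
      _ = 2 * (3 * N) / (g * s) := by field_simp; ring
      _ = 2 * w := by rw [hw]; field_simp
  · refine lt_of_le_of_lt e2 ?_
    have u0 : 0 ≤ u := by linarith
    have d1 := mul_le_mul_of_nonneg_right hc (mul_nonneg (Nat.cast_nonneg (α := ℝ) k) u0)
    have d2 : (Q.card : ℝ) < c₂ * u / 3 := by
      have := mul_le_mul_of_nonneg_right t2 w0
      have := mul_le_mul_of_nonneg_left c2 h2.le
      linarith
    have d3 := mul_lt_mul_of_pos_left d2 (show 0 < (k : ℝ) ^ 2 by positivity)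
    have d4 : 0 ≤ c₂ * (k : ℝ) ^ 2 * u := by positivity
    linarith

end Pool.Agent.Lib.MP_75c11f_co.Sh
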