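import Pool.Agent.Lib.MP_75c11f_co.Sh.Level

/-! The flow bound with the exact source mass. -/

set_option autoImplicit false

noncomputable section

namespace Pool.Agent.Lib.MP_75c11f_co.Sh

open Finset

theorem weighted_src {V : Type} [Fintype V] [DecidableEq V] [PartialOrder V] [DecidableLE V]
    [DecidableLT V] (ρ : V → ℕ) (w : V → V → ℝ) (B A W0 : ℝ)
    (hw0 : ∀ S T, 0 ≤ w S T) (hwW : ∀ S T, w S T ≤ W0)
    (hwρ : ∀ S T, w S T ≠ 0 → ρ T = ρ S + 1 ∧ S ≤ T)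
    (hout : ∀ T, ∑ R, w T R ≤ B) (hin : ∀ T, ∑ S, w S T ≤ B) (hA : 0 < A)
    (U : Finset V) (hpar : ∀ S ∈ U, ∀ T ∈ U, ρ T ≠ ρ S + 1)
    (hU2 : ∀ T ∈ U, ∀ R R', w R R' ≠ 0 → w R' T ≠ 0 → A ≤ ∑ X, w R X ∧ A ≤ ∑ X, w R' X)
    (htwo : ∀ R T, (univ.filter (fun R' => w R R' ≠ 0 ∧ w R' T ≠ 0)).card ≤ 2) :
    ∑ T ∈ U, ∑ R, w T R ≤ ∑ T, (max (∑ S, w S T) (∑ R, w T R) - ∑ S, w S T) +
      2 * (W0 / A) ^ 2 * B * (((U ×ˢ U).filter (fun q => q.1 < q.2)).card : ℝ) := by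
  set inn : V → ℝ := fun T => ∑ S, w S T with hinn
  set out : V → ℝ := fun T => ∑ R, w T R with houtd
  set m : V → ℝ := fun T => max (inn T) (out T) with hmd
  set p : V → V → ℝ := fun S T => w S T / m S with hpd
  have hin0 : ∀ T, 0 ≤ inn T := fun T => Finset.sum_nonneg (fun S _ => hw0 S T)
  have hout0 : ∀ T, 0 ≤ out T := fun T => Finset.sum_nonneg (fun S _ => hw0 T S)
  have hm0 : ∀ T, 0 ≤ m T := fun T => (hin0 T).trans (le_max_left _ _)
  have hmo : ∀ T, out T ≤ m T := fun T => le_max_right _ _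
  have hmi : ∀ T, inn T ≤ m T := fun T => le_max_left _ _
  have hwm : ∀ S T, w S T ≤ m S := fun S T =>
    (Finset.single_le_sum (f := fun R => w S R) (fun R _ => hw0 S R) (Finset.mem_univ T)).trans
      (hmo S)
  have hmp : ∀ S T, m S * p S T = w S T := by
    intro S T
    by_cases h : m S = 0
    · have h1 := hwm S T
      have h2 := hw0 S T
      have : w S T = 0 := by linarith
      simp [hpd, this]
    · simp only [hpd]
      field_simp
  have hp0 : ∀ S T, 0 ≤ p S T := fun S T => div_nonneg (hw0 S T) (hm0 S)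
  have hp1 : ∀ S, ∑ T, p S T ≤ 1 := by
    intro S
    simp only [hpd]
    rw [← Finset.sum_div]
    exact div_le_one_of_le₀ (hmo S) (hm0 S)
  have hpw : ∀ S T, p S T ≠ 0 → w S T ≠ 0 := by
    intro S T h h2
    apply h
    simp [hpd, h2]
  have hκ : ∀ T ∈ U, ∀ R, ∑ R', p R R' * p R' T ≤ 2 * (W0 / A) ^ 2 := by
    intro T hT R
    have e1 : ∑ R', p R R' * p R' T =
        ∑ R' ∈ univ.filter (fun R' => w R R' ≠ 0 ∧ w R' T ≠ 0), p R R' * p R' T := by
      symm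
      apply Finset.sum_subset (Finset.filter_subset _ _)
      intro R' _ h
      by_contra hne
      apply h
      exact Finset.mem_filter.mpr ⟨Finset.mem_univ _,
        hpw _ _ (left_ne_zero_of_mul hne), hpw _ _ (right_ne_zero_of_mul hne)⟩
    have e2 : ∀ R' ∈ univ.filter (fun R' => w R R' ≠ 0 ∧ w R' T ≠ 0),
        p R R' * p R' T ≤ (W0 / A) ^ 2 := by
      intro R' h
      have h1 := (Finset.mem_filter.mp h).2
      have h2 := hU2 T hT R R' h1.1 h1.2
      have hW : 0 ≤ W0 := (hw0 R R').trans (hwW R R')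
      have a1 : p R R' ≤ W0 / A :=
        div_le_div₀ hW (hwW R R') hA (h2.1.trans (hmo R))
      have a2 : p R' T ≤ W0 / A :=
        div_le_div₀ hW (hwW R' T) hA (h2.2.trans (hmo R'))
      rw [sq]
      exact mul_le_mul a1 a2 (hp0 _ _) (div_nonneg hW hA.le)
    rw [e1]
    refine (Finset.sum_le_card_nsmul _ _ _ e2).trans ?_
    rw [nsmul_eq_mul]
    apply mul_le_mul_of_nonneg_right _ (sq_nonneg _)
    exact_mod_cast htwo R T
  have main := flow_bound ρ p m (fun T => m T - inn T) hp0 hp1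
    (fun S T h => hwρ S T (hpw S T h)) hm0 (fun T => sub_nonneg.mpr (hmi T))
    (fun T => by simp only [hmp]; simp [hinn]) U hpar (2 * (W0 / A) ^ 2) B (by positivity)
    (fun S => max_le (hin S) (hout S)) hκ
  exact (Finset.sum_le_sum fun T _ => hmo T).trans main

open Classical in
theorem core_src (k r : ℕ) (hr : 8 * r ≤ k) (hr4 : 4 ≤ r) (hr16 : k ≤ 16 * r)
    (U : Finset (L k)) (hpar : ∀ S ∈ U, ∀ T ∈ U, rk T ≠ rk S + 1)
    (hU : ∀ T ∈ U, r ≤ asc r T) :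
    ∑ T ∈ U, out T ≤ fl k (k ^ 2 / 2) +
      2 ^ 23 * (k : ℝ) * (((U ×ˢ U).filter (fun q => q.1 < q.2)).card : ℝ) := by
  have hr0 : (4 : ℝ) ≤ r := by exact_mod_cast hr4
  have hkr : (k : ℝ) ≤ 16 * r := by exact_mod_cast hr16
  have hk0 : (0 : ℝ) < k := by exact_mod_cast (show 0 < k by omega)
  have hA : ∀ x : L k, r ≤ asc r x + 2 → (k : ℝ) ^ 3 / 2048 ≤ ∑ y, wt x y := by
    intro x hx
    refine le_trans ?_ (out_ge r hr x)
    have h1 : (r : ℝ) ≤ asc r x + 2 := by exact_mod_cast hx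
    have h2 : (r : ℝ) / 2 ≤ asc r x := by linarith
    calc (k : ℝ) ^ 3 / 2048 ≤ (16 * r) ^ 3 / 2048 := by gcongr
      _ = 4 * (r : ℝ) ^ 2 * (r / 2) := by ring
      _ ≤ _ := by gcongr
  have h := weighted_src rk wt ((k : ℝ) ^ 3) ((k : ℝ) ^ 3 / 2048) ((k : ℝ) ^ 2) wt_nonneg wt_le
    wt_rk out_le in_le (by positivity) U hpar
    (fun T hT R R' h1 h2 => by
      have a1 := asc_le r _ _ h1
      have a2 := asc_le r _ _ h2
      have a3 := hU T hT
      exact ⟨hA R (by omega), hA R' (by omega)⟩) two_between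
  have e : 2 * ((k : ℝ) ^ 2 / ((k : ℝ) ^ 3 / 2048)) ^ 2 * (k : ℝ) ^ 3 = 2 ^ 23 * k := by
    field_simp
    norm_num
  rw [e] at h
  rw [← src_eq]
  exact h

end Pool.Agent.Lib.MP_75c11f_co.Sh
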