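import Pool.Agent.Lib.MP_75c11f_co.Sh.Neg
import Pool.Agent.Lib.MP_75c11f_co.Sh.Src

/-! Supersaturation above the threshold, and the sharp constant. -/

set_option autoImplicit false

noncomputable section

namespace Pool.Agent.Lib.MP_75c11f_co.Sh

open Finset Real Filter

theorem asc_small {ε : ℝ} (hε : 0 < ε) : ∀ᶠ k : ℕ in atTop,
    (k : ℝ) ^ 2 * ((univ.filter fun x : L k => asc (k / 8) x < k / 8).card : ℝ) ≤
      ε * ((2 * k).choose k : ℝ) := by
  have hlim := tendsto_pow_const_mul_const_pow_of_lt_one 3 (r := 81 / 128) (by norm_num)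
    (by norm_num)
  obtain ⟨r₀, hr₀⟩ := eventually_atTop.1
    (hlim.eventually (gt_mem_nhds (show (0 : ℝ) < ε / 4096 by positivity)))
  filter_upwards [eventually_ge_atTop (8 * (r₀ + 4))] with k hk
  have h0 := hr₀ (k / 8) (by omega)
  have h1 := bad_count (k := k) (k / 8) (by omega) (by omega)
  have h2 := four_le (k := k) (by omega)
  have h3 : (k : ℝ) ≤ 16 * (k / 8 : ℕ) := by exact_mod_cast (show k ≤ 16 * (k / 8) by omega)
  generalize k / 8 = r at *
  calc _ ≤ (k : ℝ) ^ 2 * (k * ((2 * k).choose k : ℝ) * (81 / 128) ^ r) := by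
        refine mul_le_mul_of_nonneg_left (h1.trans ?_) (by positivity)
        gcongr
    _ = (k : ℝ) ^ 3 * (81 / 128) ^ r * ((2 * k).choose k : ℝ) := by ring
    _ ≤ (16 * r) ^ 3 * (81 / 128) ^ r * ((2 * k).choose k : ℝ) := by gcongr
    _ ≤ _ := mul_le_mul_of_nonneg_right (by linarith) (Nat.cast_nonneg _)

theorem parity {k : ℕ} (r : ℕ) (U : Finset (L k)) :
    ∃ U' : Finset (L k), U' ⊆ U ∧ (∀ S ∈ U', ∀ T ∈ U', rk T ≠ rk S + 1) ∧
      (∀ T ∈ U', r ≤ asc r T) ∧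
      U.card ≤ 2 * U'.card + (univ.filter fun x : L k => asc r x < r).card := by
  classical
  have hcov : U ⊆ (U.filter (fun x => r ≤ asc r x ∧ rk x % 2 = 0) ∪
      U.filter (fun x => r ≤ asc r x ∧ rk x % 2 = 1)) ∪
      univ.filter (fun x : L k => asc r x < r) := by
    intro x hx
    simp only [mem_union, mem_filter, mem_univ, true_and, hx]
    omega
  have hc := (card_le_card hcov).trans ((card_union_le _ _).trans
    (Nat.add_le_add_right (card_union_le _ _) _))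
  have key : ∀ b, ∀ S ∈ U.filter (fun x => r ≤ asc r x ∧ rk x % 2 = b),
      ∀ T ∈ U.filter (fun x => r ≤ asc r x ∧ rk x % 2 = b), rk T ≠ rk S + 1 :=
    fun b S hS T hT => by
      have a1 := (mem_filter.1 hS).2.2
      have a2 := (mem_filter.1 hT).2.2
      omega
  rcases le_total (U.filter (fun x => r ≤ asc r x ∧ rk x % 2 = 0)).card
    (U.filter (fun x => r ≤ asc r x ∧ rk x % 2 = 1)).card with h | h
  · exact ⟨_, filter_subset _ _, key 1, fun T hT => (mem_filter.1 hT).2.1, by omega⟩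
  · exact ⟨_, filter_subset _ _, key 0, fun T hT => (mem_filter.1 hT).2.1, by omega⟩

theorem pos {c₁ : ℝ} (h1 : 6 / sqrt (3 * π) < c₁) : ∃ c₂ : ℝ, 0 < c₂ ∧
    ∀ᶠ k : ℕ in atTop, ∀ U : Finset (L k),
      c₁ * (k : ℝ) ^ (-(3 / 2 : ℝ)) * ((2 * k).choose k : ℝ) ≤ (U.card : ℝ) →
      c₂ * (k : ℝ) ^ 2 * (U.card : ℝ) ≤
        (((G k).induce (U : Set (L k))).edgeSet.ncard : ℝ) := by
  classical
  have hg := three_le_g
  have hg' := g_le_four
  have hc : 0 < c₁ := lt_trans (by positivity) h1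
  rw [div_lt_iff₀ (by positivity)] at h1
  obtain ⟨θ, t0, t1⟩ : ∃ θ : ℝ, 0 < θ ∧
      θ * (4 * (c₁ * sqrt (3 * π)) / 3 + 6) = c₁ * sqrt (3 * π) / 6 - 1 :=
    ⟨(c₁ * sqrt (3 * π) / 6 - 1) / (4 * (c₁ * sqrt (3 * π)) / 3 + 6),
      div_pos (by linarith) (by linarith), div_mul_cancel₀ _ (by linarith)⟩
  have t2 : θ ≤ 1 / 2 := by nlinarith
  refine ⟨θ / (c₁ * sqrt (3 * π) * 2 ^ 23), by positivity, ?_⟩
  filter_upwards [mass t0 t2, bad_small t0, asc_small (mul_pos t0 hc), s_large (4 / θ),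
    eventually_ge_atTop 32] with k hm hb ha hs hk U hU
  have hk' : (32 : ℝ) ≤ k := by exact_mod_cast hk
  obtain ⟨U', hsub, hpar, htyp, hbig⟩ := parity (k / 8) U
  have a1 := core_src k (k / 8) (by omega) (by omega) (by omega) U' hpar htyp
  have a2 := (Nat.cast_le (α := ℝ)).2 (pairs_le_edges k U U' hsub)
  have a3 := le_sum_out U' t0.le
  have a4 : (k : ℝ) ^ 3 * (bad k θ).card ≤ (k : ℝ) ^ 8 * (bad k θ).card :=
    mul_le_mul_of_nonneg_right (pow_le_pow_right₀ (by linarith) (by norm_num)) (Nat.cast_nonneg _)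
  have a5 := (Nat.cast_le (α := ℝ)).2 hbig
  push_cast at a5
  have a6 := mul_le_mul_of_nonneg_left a2 (show 0 ≤ 2 ^ 23 * (k : ℝ) by positivity)
  have a7 : (1 - θ) * (k : ℝ) ^ 3 / 3 * U'.card ≤ fl k (k ^ 2 / 2) + ((2 * k).choose k : ℝ) +
      2 ^ 23 * (k : ℝ) * (((G k).induce (U : Set (L k))).edgeSet.ncard : ℝ) := by linarith
  replace hm := hm.2
  have hss := sq_sqrt (show 0 ≤ (k : ℝ) ^ 3 by positivity)
  have hs0 : 0 < sqrt ((k : ℝ) ^ 3) := by positivity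
  have hs1 : sqrt ((k : ℝ) ^ 3) ≤ (k : ℝ) ^ 2 := sqrt_le_iff.2 ⟨by positivity, by
    rw [← pow_mul]
    exact pow_le_pow_right₀ (by linarith) (by norm_num)⟩
  have hN : 0 ≤ ((2 * k).choose k : ℝ) := Nat.cast_nonneg _
  have hu : (0 : ℝ) ≤ U.card := Nat.cast_nonneg _
  have he : (0 : ℝ) ≤ (((G k).induce (U : Set (L k))).edgeSet.ncard : ℝ) := Nat.cast_nonneg _
  have hb0 : (0 : ℝ) ≤ (univ.filter fun x : L k => asc (k / 8) x < k / 8).card :=
    Nat.cast_nonneg _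
  rw [rpow_eq, mul_right_comm, ← div_eq_mul_inv, div_le_iff₀ hs0] at hU
  rw [div_mul_eq_mul_div, div_le_iff₀ t0] at hs
  clear a1 a2 a3 a4 a6 hb hbig htyp hpar hsub
  generalize sqrt ((k : ℝ) ^ 3) = s at *
  generalize sqrt (3 * π) = g at *
  generalize fl k (k ^ 2 / 2) = M at *
  generalize ((2 * k).choose k : ℝ) = N at *
  generalize (((G k).induce (U : Set (L k))).edgeSet.ncard : ℝ) = e at *
  generalize ((univ.filter fun x : L k => asc (k / 8) x < k / 8).card : ℝ) = b at *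
  generalize (U.card : ℝ) = u at *
  generalize (U'.card : ℝ) = v at *
  have b1 : b ≤ θ * u := by
    refine le_of_mul_le_mul_left ?_ hs0
    linarith [mul_le_mul_of_nonneg_right hs1 hb0, mul_le_mul_of_nonneg_left hU t0.le]
  have p0 : 0 ≤ 1 - θ := by linarith
  have p1 : 0 ≤ 1 - 2 * θ := by linarith
  have b2 : (1 - θ) * s ^ 2 / 3 * ((1 - θ) * u / 2) ≤ M + N + 2 ^ 23 * k * e := by
    refine le_trans ?_ a7
    rw [hss]
    exact mul_le_mul_of_nonneg_left (by linarith) (by positivity)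
  have b3 := mul_le_mul_of_nonneg_left b2 (show 0 ≤ (1 - 2 * θ) * (c₁ * g) by positivity)
  have b4 := mul_le_mul_of_nonneg_left hm hc.le
  have b5 := mul_le_mul_of_nonneg_left hU (show 0 ≤ (1 + 2 * θ) * s by positivity)
  have b6 : (1 - 2 * θ) * (c₁ * g) * N ≤ θ * (u * s ^ 2) := by
    calc _ = (1 - 2 * θ) * g * (c₁ * N) := by ring
      _ ≤ 1 * (s * θ) * (u * s) := by gcongr <;> linarith
      _ = _ := by ring
  have x0 : 0 ≤ u * s ^ 2 := by positivity
  have b7 : (1 - 4 * θ) * (c₁ * g * (u * s ^ 2)) ≤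
      (1 - 2 * θ) * (1 - θ) ^ 2 * (c₁ * g * (u * s ^ 2)) :=
    mul_le_mul_of_nonneg_right (by nlinarith) (by positivity)
  have b8 := congrArg (· * (u * s ^ 2)) t1
  have b9 : 0 ≤ θ * (c₁ * g * (2 ^ 23 * k * e)) := by positivity
  have b10 := mul_le_mul_of_nonneg_right h1.le (mul_nonneg t0.le x0)
  have b11 : θ * (u * s ^ 2) ≤ c₁ * g * (2 ^ 23 * k * e) := by
    have := mul_nonneg t0.le x0
    linarith
  rw [div_mul_eq_mul_div, div_mul_eq_mul_div, div_le_iff₀ (by positivity)]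
  refine le_of_mul_le_mul_left ?_ (show (0 : ℝ) < k by linarith)
  rw [hss] at b11
  linarith

theorem const_eq : 2 * sqrt (3 / π) = 6 / sqrt (3 * π) := by
  have h : sqrt (3 / π) * sqrt (3 * π) = 3 := by
    rw [← sqrt_mul (by positivity), show 3 / π * (3 * π) = 3 ^ 2 by field_simp,
      sqrt_sq (by norm_num)]
  rw [eq_div_iff (by linarith [three_le_g])]
  linarith

theorem sharp (c₁ : ℝ) : (∃ c₂ : ℝ, 0 < c₂ ∧ ∃ k₀ : ℕ, ∀ k : ℕ, k₀ ≤ k →
    ∀ U : Finset (L k),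
      c₁ * (k : ℝ) ^ (-(3 / 2 : ℝ)) * ((2 * k).choose k : ℝ) ≤ (U.card : ℝ) →
      c₂ * (k : ℝ) ^ 2 * (U.card : ℝ) ≤
        (((G k).induce (U : Set (L k))).edgeSet.ncard : ℝ)) ↔ 2 * sqrt (3 / π) < c₁ := by
  rw [const_eq]
  constructor
  · rintro ⟨c₂, h2, k₀, h⟩
    by_contra h1
    obtain ⟨k, hk, U, a, b⟩ := ((eventually_ge_atTop k₀).and (neg (not_lt.1 h1) h2)).exists
    exact absurd (h k hk U a) (not_le.2 b)
  · intro h1
    obtain ⟨c₂, h2, h⟩ := pos h1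
    exact ⟨c₂, h2, eventually_atTop.1 h⟩

end Pool.Agent.Lib.MP_75c11f_co.Sh
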