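import Pool.Agent.Lib.MP_75c11f_co.Sh.Gauss

/-! Sums of a sequence obeying the level recursion. -/

set_option autoImplicit false

noncomputable section

namespace Pool.Agent.Lib.MP_75c11f_co.Sh

open Finset Real

theorem sum_odd (F : ℝ) (i : ℕ) :
    ∑ l ∈ range i, (2 * (l : ℝ) + 1) / F = (i : ℝ) ^ 2 / F := by
  induction i with
  | zero => simp
  | succ i ih =>
    rw [sum_range_succ, ih]
    push_cast
    ring

theorem seq_up (f l : ℕ → ℝ) (K F β : ℝ) (m : ℕ) (hm : 2 * (m : ℝ) ≤ K) (hF : K ≤ F)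
    (hF0 : 0 < F) (hβ : 0 ≤ β) (hf : ∀ j, 0 ≤ f j) (hl : ∀ j, 0 ≤ l j)
    (hrec : ∀ j : ℕ, f (j + 1) = f j + (K - 2 * (j + 1)) * l (j + 1))
    (hup : ∀ j, f j ≤ F * l j + β) :
    ∑ j ∈ range m, f j ≤ f m * (1 + sqrt (π * F) / 2) + (m : ℝ) ^ 2 * β := by
  have h0 : f (m - 1 - 0) ≤ f m := by
    rcases m with _ | m
    · exact le_rfl
    · have h1 := hrec m
      push_cast at hm
      have h2 := mul_nonneg (sub_nonneg.2 hm) (hl (m + 1))
      rw [show m + 1 - 1 - 0 = m from rfl]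
      linarith
  have h1 := rec_up (fun i => f (m - 1 - i)) (fun i => (2 * (i : ℝ) + 1) / F) β (m - 1) hβ
    (fun i _ => by positivity) fun i hi => by
      obtain ⟨j, hj⟩ : ∃ j, m = j + i + 2 := ⟨m - i - 2, by omega⟩
      have e1 : m - 1 - (i + 1) = j := by omega
      have e2 : m - 1 - i = j + 1 := by omega
      have e3 : (m : ℝ) = j + i + 2 := by exact_mod_cast hj
      simp only [e1, e2]
      set x := (2 * (i : ℝ) + 1) / F with hx
      have x0 : 0 ≤ x := by positivity
      have x1 : x ≤ 1 := by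
        rw [hx, div_le_one hF0]
        linarith [Nat.cast_nonneg (α := ℝ) j]
      have x2 : x * F = 2 * i + 1 := by
        rw [hx]
        field_simp
      have a1 := mul_le_mul_of_nonneg_left (hup (j + 1)) x0
      have a2 : x * F * l (j + 1) ≤ (K - 2 * (j + 1)) * l (j + 1) :=
        mul_le_mul_of_nonneg_right (by linarith) (hl _)
      have a3 := mul_le_mul_of_nonneg_left (add_one_le_exp (-x)) (hf (j + 1))
      have a4 := mul_le_mul_of_nonneg_right x1 hβ
      linarith [hrec j]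
  rw [← sum_range_reflect]
  calc _ ≤ ∑ i ∈ range m, (f m * exp (-((i : ℝ) ^ 2 / F)) + m * β) :=
        sum_le_sum fun i hi => by
          have hi' := mem_range.1 hi
          have a1 := h1 i (by omega)
          rw [sum_odd] at a1
          have a2 := mul_le_mul_of_nonneg_right h0 (exp_pos (-((i : ℝ) ^ 2 / F))).le
          have a3 : (i : ℝ) * β ≤ m * β :=
            mul_le_mul_of_nonneg_right (Nat.cast_le.2 hi'.le) hβ
          linarith
    _ ≤ _ := by
        rw [sum_add_distrib, ← mul_sum, sum_const, card_range, nsmul_eq_mul]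
        linarith [mul_le_mul_of_nonneg_left (gauss_up hF0 m) (hf m)]

theorem exp_le_sub {θ x : ℝ} (hθ : 0 ≤ θ) (hx : 0 ≤ x) (h : (1 + θ) * x ≤ θ) :
    exp (-((1 + θ) * x)) ≤ 1 - x := by
  have h0 : 0 ≤ (1 + θ) * x := by positivity
  have h1 := add_one_le_exp ((1 + θ) * x)
  have h2 : x ≤ 1 := by nlinarith
  rw [exp_neg, inv_le_iff_one_le_mul₀ (exp_pos _)]
  have h3 := mul_le_mul_of_nonneg_left h1 (sub_nonneg.2 h2)
  have h4 := mul_le_mul_of_nonneg_right h hx
  nlinarith

theorem seq_low (f l : ℕ → ℝ) (K F β θ : ℝ) (m : ℕ) (hm : 2 * (m : ℝ) ≤ K)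
    (hm' : K ≤ 2 * m + 1) (hθ : 0 ≤ θ) (hF : (1 + θ) * K ≤ θ * F)
    (hF0 : 0 < F) (hβ : 0 ≤ β) (hf : ∀ j, 0 ≤ f j) (hl : ∀ j, 0 ≤ l j)
    (hrec : ∀ j : ℕ, f (j + 1) = f j + (K - 2 * (j + 1)) * l (j + 1))
    (hlow : ∀ j, F * l j ≤ f j + β) :
    f m * (sqrt (π * (F / (1 + θ))) / 2 - F / (1 + θ) / ((m + 1 : ℕ) : ℝ) - 1) ≤
      ∑ j ∈ range m, f j + ((m : ℝ) + 1) ^ 2 * β := by
  have hA : 0 < F / (1 + θ) := by positivity
  have h1 := rec_low (fun i => f (m - i)) (fun i => (2 * (i : ℝ) + 1) / (F / (1 + θ))) β m hβ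
    (fun i _ => by positivity) fun i hi => by
      obtain ⟨j, hj⟩ : ∃ j, m = j + i + 1 := ⟨m - i - 1, by omega⟩
      have e1 : m - (i + 1) = j := by omega
      have e2 : m - i = j + 1 := by omega
      have e3 : (m : ℝ) = j + i + 1 := by exact_mod_cast hj
      simp only [e1, e2]
      set x := (2 * (i : ℝ) + 1) / F with hx
      have x0 : 0 ≤ x := by positivity
      have x2 : x * F = 2 * i + 1 := by
        rw [hx]
        field_simp
      have x3 : (1 + θ) * x ≤ θ := by
        refine le_of_mul_le_mul_right ?_ hF0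
        rw [mul_assoc, x2]
        refine le_trans (mul_le_mul_of_nonneg_left ?_ (by positivity)) hF
        linarith [Nat.cast_nonneg (α := ℝ) j]
      have x1 : x ≤ 1 := by nlinarith
      have x4 : (2 * (i : ℝ) + 1) / (F / (1 + θ)) = (1 + θ) * x := by
        rw [hx]
        field_simp
      rw [x4]
      have a1 := mul_le_mul_of_nonneg_left (hlow (j + 1)) x0
      have a2 : (K - 2 * (j + 1)) * l (j + 1) ≤ x * F * l (j + 1) :=
        mul_le_mul_of_nonneg_right (by linarith) (hl _)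
      have a3 := mul_le_mul_of_nonneg_left (exp_le_sub hθ x0 x3) (hf (j + 1))
      have a4 := mul_le_mul_of_nonneg_right x1 hβ
      linarith [hrec j]
  have h2 : ∑ i ∈ range (m + 1), (f m * exp (-((i : ℝ) ^ 2 / (F / (1 + θ)))) - (m + 1) * β) ≤
      ∑ i ∈ range (m + 1), f (m + 1 - 1 - i) := sum_le_sum fun i hi => by
    have hi' := mem_range.1 hi
    have a1 := h1 i (by omega)
    rw [sum_odd] at a1
    have a3 : (i : ℝ) * β ≤ (m + 1) * β :=
      mul_le_mul_of_nonneg_right (by exact_mod_cast hi'.le) hβ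
    rw [show m + 1 - 1 - i = m - i by omega]
    simp only [Nat.sub_zero] at a1
    linarith
  rw [sum_range_reflect, sum_range_succ f, sum_sub_distrib, ← mul_sum, sum_const, card_range,
    nsmul_eq_mul] at h2
  have h3 := mul_le_mul_of_nonneg_left (gauss_low hA (Nat.succ_pos m)) (hf m)
  push_cast at h2 h3 ⊢
  linarith

end Pool.Agent.Lib.MP_75c11f_co.Sh
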